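import Pool.Agent.Helper8.UB.Chr2

/-!
# Strong uniform boundedness with a bound independent of the field of constants

Let `f` be a rational map of degree `d ≥ 2` over a field `F` containing a field `k` of any
characteristic `ℓ`. Suppose that `f` is not isotrivial and, in case `ℓ` is larger than a certain
`p₀(d)`, not a flexible Lattès map. Consider all fields `M` between `k` and `F` over which `f` is
defined and which have degree at most `n` over a purely transcendental extension of `k` (of any
transcendence degree). All these fields together contain at most `N(n, d)` preperiodic points of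
`f`: the bound does not depend on `k`, not even on its characteristic.
-/

set_option autoImplicit false

namespace Pool.Agent.Results.MP_9b502d_nt.IndependentOfCharacteristic

open Polynomial

universe u v

/-- The self-map of the projective line `F ∪ {∞}`, where `none` is `∞`, given by the rational
function `p / q`, where `p` and `q` are coprime and `d` is the larger of their degrees: it sends
`x` to `p(x) / q(x)`, or to `∞` when `q(x) = 0`, and it sends `∞` to the quotient of the
coefficients of degree `d`, or to `∞` when that of `q` is zero. -/
noncomputable def mapP1 {F : Type*} [Field F] (p q : F[X]) (d : ℕ) : Option F → Option F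
  | some x => by classical exact if q.eval x = 0 then none else some (p.eval x / q.eval x)
  | none => by classical exact if q.coeff d = 0 then none else some (p.coeff d / q.coeff d)

/-- The point `z` is preperiodic for the map `p / q` of degree `d`: its forward orbit is finite. -/
def IsPreperiodic {F : Type*} [Field F] (p q : F[X]) (d : ℕ) (z : Option F) : Prop :=
  (Set.range fun m : ℕ => (mapP1 p q d)^[m] z).Finite

/-- With `φ(x) = (a x + b) / (c x + e)`, the map `p / q` of degree `d` satisfies
`φ ∘ (p / q) = (u / w) ∘ φ` for some `a, b, c, e` in `F` with `a e ≠ b c` and some polynomials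
`u, w` of degree at most `d`, not both zero, with coefficients algebraic over `k`; the equation is
written with denominators cleared. For an algebraically closed field `F` this says that `p / q` is
isotrivial. -/
def IsotrivialOver (k : Type*) {F : Type*} [Field k] [Field F] [Algebra k F] (p q : F[X])
    (d : ℕ) : Prop :=
  ∃ a b c e : F, a * e - b * c ≠ 0 ∧ ∃ u w : F[X], (u ≠ 0 ∨ w ≠ 0) ∧
    u.natDegree ≤ d ∧ w.natDegree ≤ d ∧ (∀ n, IsAlgebraic k (u.coeff n)) ∧
    (∀ n, IsAlgebraic k (w.coeff n)) ∧
    (C a * p + C b * q) * ∑ i ∈ Finset.range (d + 1),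
      C (w.coeff i) * (C a * X + C b) ^ i * (C c * X + C e) ^ (d - i) =
    (C c * p + C e * q) * ∑ i ∈ Finset.range (d + 1),
      C (u.coeff i) * (C a * X + C b) ^ i * (C c * X + C e) ^ (d - i)

/-- The map `f = p / q` of degree `d` is a flexible Lattès map: for some nonzero rational function
`R = A / B` we have `R(f(z)) f'(z)² = d R(z)`, i.e. the pull-back of the quadratic differential
`R dz²` by `f` is `d R dz²`. With `f' = (p' q - p q') / q²` the equation is written with
denominators cleared; `e` is any bound for the degrees of `A` and `B`. -/
def FlexibleLattes {F : Type*} [Field F] (d : ℕ) (p q : F[X]) : Prop :=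
  ∃ (e : ℕ) (A B : F[X]), A ≠ 0 ∧ B ≠ 0 ∧ A.natDegree ≤ e ∧ B.natDegree ≤ e ∧
    (∑ i ∈ Finset.range (e + 1), C (A.coeff i) * p ^ i * q ^ (e - i)) *
        (derivative p * q - p * derivative q) ^ 2 * B =
      C (d : F) * A * q ^ 4 * ∑ i ∈ Finset.range (e + 1), C (B.coeff i) * p ^ i * q ^ (e - i)

/-- The field `M` has degree at most `n` over a purely transcendental extension `k(B)` of `k`: here
`B` is a set of any cardinality, algebraically independent over `k`. -/
def IrrationalityLE (k M : Type*) [Field k] [Field M] [Algebra k M] (n : ℕ) : Prop :=
  ∃ B : Set M, AlgebraicIndependent k ((↑) : B → M) ∧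
    FiniteDimensional (IntermediateField.adjoin k B) M ∧
    Module.finrank (IntermediateField.adjoin k B) M ≤ n

/-- The preperiodic points of the map `p / q` of degree `d` over `F` which are defined over some
field `M` between `k` and `F` such that `p / q` is defined over `M` and such that `M` has degree at
most `n` over a purely transcendental extension of `k`. The field `M` may depend on the point. -/
def preperIrr (k : Type*) {F : Type*} [Field k] [Field F] [Algebra k F] (p q : F[X])
    (d n : ℕ) : Set (Option F) :=
  {z | IsPreperiodic p q d z ∧ ∃ M : IntermediateField k F, IrrationalityLE k M n ∧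
    (∀ i, p.coeff i ∈ M ∧ q.coeff i ∈ M) ∧ ∀ x, z = some x → x ∈ M}

/-- The preperiodic points of degree at most `e` over `L` of the map `p / q` of degree `d`, in the
projective line over the algebraic closure `F` of `L` (the point `∞` has degree one). For `e = 1`
these are the preperiodic points in the projective line over `L`. -/
def preperDeg (L : Type*) {F : Type*} [Field L] [Field F] [Algebra L F] (p q : F[X]) (d e : ℕ) :
    Set (Option F) :=
  {z | IsPreperiodic p q d z ∧ ∀ x, z = some x → (minpoly L x).natDegree ≤ e}

/-- **Strong uniform boundedness with a bound independent of the field of constants.** There are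
functions `p₀` and `N` with the following properties. Let `k` be any field and let `ℓ` be its
characteristic.

(1) Let `F` be an extension of `k` and `f = p / q` a rational map of degree `d ≥ 2` over `F` which is
not conjugate over `F` to a map with coefficients algebraic over `k`. If `ℓ > p₀(d)`, suppose also
that `f` is not a flexible Lattès map (over the algebraic closure of `F`). Then all fields `M`
between `k` and `F` such that `f` is defined over `M` and `M` has degree at most `n` over a purely
transcendental extension of `k` together contain at most `N(n, d)` preperiodic points of `f`.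

(2) Let `K` be a field of degree at most `m` over a purely transcendental extension of `k`, and let
`L` be an extension of `K` of degree at most `D`. Every non-isotrivial rational map of degree
`d ≥ 2` over `L` which, if `ℓ > p₀(d)`, is not a flexible Lattès map, has at most `N(m D e, d)`
preperiodic points of degree at most `e` over `L`, for all `e ≥ 1`. -/
theorem result : ∃ (p₀ : ℕ → ℕ) (N : ℕ → ℕ → ℕ),
    (∀ (ℓ n d : ℕ), 2 ≤ d → ∀ (k : Type v) (F : Type u) [Field k] [CharP k ℓ] [Field F]
      [Algebra k F] (p q : F[X]), IsCoprime p q → max p.natDegree q.natDegree = d →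
      ¬ IsotrivialOver k p q d →
      (p₀ d < ℓ → ¬ FlexibleLattes d (p.map (algebraMap F (AlgebraicClosure F)))
        (q.map (algebraMap F (AlgebraicClosure F)))) →
      (preperIrr k p q d n).encard ≤ ((N n d : ℕ) : ℕ∞)) ∧
    (∀ (ℓ m D e d : ℕ), 1 ≤ e → 2 ≤ d → ∀ (k : Type v) (K : Type u) [Field k] [CharP k ℓ] [Field K]
      [Algebra k K], IrrationalityLE k K m →
      ∀ L : IntermediateField K (AlgebraicClosure K), FiniteDimensional K L →
      Module.finrank K L ≤ D → ∀ p q : (AlgebraicClosure K)[X],
      (∀ i, p.coeff i ∈ L ∧ q.coeff i ∈ L) → IsCoprime p q → max p.natDegree q.natDegree = d →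
      ¬ IsotrivialOver k p q d → (p₀ d < ℓ → ¬ FlexibleLattes d p q) →
      (preperDeg L p q d e).encard ≤ ((N (m * D * e) d : ℕ) : ℕ∞)) := by
  classical
  have hmap : ∀ {F : Type u} [Field F] (p q : F[X]) (d : ℕ),
      mapP1 p q d = Pool.Agent.W277.UH.ratP1 p q d := by
    intro F _ p q d
    funext z
    rcases z with _ | x <;> rfl
  obtain ⟨p₀, h⟩ := Pool.Agent.Helper8.UB.main_all.{u, v}
  choose N hN using h
  have h1 : ∀ (ℓ n d : ℕ) (hd : 2 ≤ d), ∀ (k : Type v) (F : Type u) [Field k] [CharP k ℓ]
      [Field F] [Algebra k F] (p q : F[X]), IsCoprime p q → max p.natDegree q.natDegree = d →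
      ¬ IsotrivialOver k p q d →
      (p₀ d < ℓ → ¬ FlexibleLattes d (p.map (algebraMap F (AlgebraicClosure F)))
        (q.map (algebraMap F (AlgebraicClosure F)))) →
      (preperIrr k p q d n).encard ≤ ((N n d hd : ℕ) : ℕ∞) := by
    intro ℓ n d hd k F _ _ _ _ p q hco hmax hiso hfl
    refine (Set.encard_le_encard ?_).trans (hN n d hd ℓ k F p q hco hmax hiso hfl)
    rintro z ⟨hz, hM⟩
    refine ⟨?_, hM⟩
    rw [← hmap]
    exact hz
  refine ⟨p₀, fun n d => if hd : 2 ≤ d then N n d hd else 0, ?_, ?_⟩
  · intro ℓ n d hd k F _ _ _ _ p q hco hmax hiso hfl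
    beta_reduce
    rw [dif_pos hd]
    exact h1 ℓ n d hd k F p q hco hmax hiso hfl
  · intro ℓ m D e d he hd k K _ _ _ _ hK L hfd hD p q hpq hco hmax hiso hfl
    beta_reduce
    rw [dif_pos hd]
    refine (Set.encard_le_encard ?_).trans
      (h1 ℓ (m * D * e) d hd k (AlgebraicClosure K) p q hco hmax hiso ?_)
    · rintro z ⟨hz, hz2⟩
      obtain ⟨M, hM, hLM, hzM⟩ := Pool.Agent.Helper8.UB.deg_irr (m := m) hK L hfd hD he z hz2
      exact ⟨hz, M, hM, fun i => ⟨hLM _ (hpq i).1, hLM _ (hpq i).2⟩, hzM⟩
    · intro hp h2
      apply hfl hp
      let φ : AlgebraicClosure (AlgebraicClosure K) →ₐ[AlgebraicClosure K] AlgebraicClosure K :=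
        IsAlgClosed.lift
      have h3 := Pool.Agent.Helper8.UB.FL_map
        (φ : AlgebraicClosure (AlgebraicClosure K) →+* AlgebraicClosure K) h2
      have h4 : ((φ : AlgebraicClosure (AlgebraicClosure K) →+* AlgebraicClosure K)).comp
          (algebraMap (AlgebraicClosure K) (AlgebraicClosure (AlgebraicClosure K))) =
          RingHom.id (AlgebraicClosure K) := by
        ext x
        exact φ.commutes x
      rw [Polynomial.map_map, Polynomial.map_map, h4, Polynomial.map_id, Polynomial.map_id] at h3
      exact h3

end Pool.Agent.Results.MP_9b502d_nt.IndependentOfCharacteristic
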